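import Pool.Agent.K1H9.RP.Basic

/-! # Gaussian laws (piece RP-TF4) -/

set_option autoImplicit false

open MeasureTheory ProbabilityTheory Matrix
open scoped BigOperators ENNReal

namespace Pool.Agent.K1H37.RP

open Pool.Agent.K1H9.RP

theorem cf_G1 (L : StrongDual ℝ ℝ) : charFunDual G1 L = Complex.exp (-((L 1 : ℝ) : ℂ) ^ 2 / 2) := by
  have h1 : charFunDual G1 L = charFun G1 (L 1) := by
    rw [charFunDual_apply, charFun_apply_real]
    congr 1
    funext x
    have : L x = L 1 * x := by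
      conv_lhs => rw [show x = x • (1 : ℝ) by simp, map_smul, smul_eq_mul, mul_comm]
    rw [this]
    push_cast
    rfl
  rw [h1, G1, charFun_gaussianReal]
  congr 1
  simp
  ring

theorem cf_gv (d : ℕ) (L : StrongDual ℝ (Fin d → ℝ)) :
    charFunDual (gv (Fin d)) L =
      Complex.exp (-((∑ i, (L (Pi.single i 1)) ^ 2 : ℝ) : ℂ) / 2) := by
  classical
  rw [gv, charFunDual_pi]
  simp_rw [cf_G1]
  rw [← Complex.exp_sum]
  congr 1
  push_cast
  rw [← Finset.sum_div, Finset.sum_neg_distrib]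
  rfl

/-- the law of `G + τ V` -/
theorem law_i (d : ℕ) (τ : ℝ) :
    (gv (Fin d)).map (fun g => Real.sqrt (1 + τ ^ 2) • g) =
      ((gv (Fin d)).prod (gv (Fin d))).map (fun p => p.1 + τ • p.2) := by
  have e1 : (fun g : Fin d → ℝ => Real.sqrt (1 + τ ^ 2) • g) =
      ⇑(Real.sqrt (1 + τ ^ 2) • ContinuousLinearMap.id ℝ (Fin d → ℝ) :
        (Fin d → ℝ) →L[ℝ] (Fin d → ℝ)) := rfl
  have e2 : (fun p : (Fin d → ℝ) × (Fin d → ℝ) => p.1 + τ • p.2) =
      ⇑(ContinuousLinearMap.fst ℝ (Fin d → ℝ) (Fin d → ℝ) +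
        τ • ContinuousLinearMap.snd ℝ (Fin d → ℝ) (Fin d → ℝ) :
        ((Fin d → ℝ) × (Fin d → ℝ)) →L[ℝ] (Fin d → ℝ)) := rfl
  rw [e1, e2]
  have i1 : IsProbabilityMeasure ((gv (Fin d)).map
    (Real.sqrt (1 + τ ^ 2) • ContinuousLinearMap.id ℝ (Fin d → ℝ))) :=
    Measure.isProbabilityMeasure_map (by fun_prop)
  have i2 : IsProbabilityMeasure (((gv (Fin d)).prod (gv (Fin d))).map
    (ContinuousLinearMap.fst ℝ (Fin d → ℝ) (Fin d → ℝ) +
        τ • ContinuousLinearMap.snd ℝ (Fin d → ℝ) (Fin d → ℝ))) :=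
    Measure.isProbabilityMeasure_map (by fun_prop)
  refine Measure.ext_of_charFunDual ?_
  funext L
  rw [charFunDual_map, charFunDual_map, charFunDual_prod, cf_gv, cf_gv, cf_gv, ← Complex.exp_add]
  congr 1
  have hs : Real.sqrt (1 + τ ^ 2) ^ 2 = 1 + τ ^ 2 := Real.sq_sqrt (by positivity)
  have h1 : ∑ i : Fin d, ((L.comp (Real.sqrt (1 + τ ^ 2) • ContinuousLinearMap.id ℝ (Fin d → ℝ)))
      (Pi.single i 1)) ^ 2 = (1 + τ ^ 2) * ∑ i : Fin d, (L (Pi.single i 1)) ^ 2 := by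
    rw [Finset.mul_sum]
    refine Finset.sum_congr rfl fun i _ => ?_
    simp only [ContinuousLinearMap.comp_apply, ContinuousLinearMap.smul_apply,
      ContinuousLinearMap.id_apply, map_smul, smul_eq_mul]
    rw [mul_pow, hs]
  have h2 : ∑ i : Fin d, (((L.comp (ContinuousLinearMap.fst ℝ (Fin d → ℝ) (Fin d → ℝ) +
        τ • ContinuousLinearMap.snd ℝ (Fin d → ℝ) (Fin d → ℝ))).comp
          (ContinuousLinearMap.inl ℝ (Fin d → ℝ) (Fin d → ℝ)))
      (Pi.single i 1)) ^ 2 = ∑ i : Fin d, (L (Pi.single i 1)) ^ 2 := by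
    refine Finset.sum_congr rfl fun i _ => ?_
    simp
  have h3 : ∑ i : Fin d, (((L.comp (ContinuousLinearMap.fst ℝ (Fin d → ℝ) (Fin d → ℝ) +
        τ • ContinuousLinearMap.snd ℝ (Fin d → ℝ) (Fin d → ℝ))).comp
          (ContinuousLinearMap.inr ℝ (Fin d → ℝ) (Fin d → ℝ)))
      (Pi.single i 1)) ^ 2 = τ ^ 2 * ∑ i : Fin d, (L (Pi.single i 1)) ^ 2 := by
    rw [Finset.mul_sum]
    refine Finset.sum_congr rfl fun i _ => ?_
    simp
    ring
  rw [h1, h2, h3]
  push_cast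
  ring

/-- the scalar product with `β` -/
noncomputable def dotL {d : ℕ} (β : Fin d → ℝ) : (Fin d → ℝ) →L[ℝ] ℝ :=
  ∑ i, β i • ContinuousLinearMap.proj i

theorem dotL_apply {d : ℕ} (β z : Fin d → ℝ) : dotL β z = β ⬝ᵥ z := by
  simp [dotL, dotProduct]

theorem shear_eq {d : ℕ} (β : Fin d → ℝ) (θ : ℝ) (z : Fin d → ℝ) :
    shear β θ z = (ContinuousLinearMap.id ℝ (Fin d → ℝ) +
      ((((Real.sqrt (1 + ∑ c, β c ^ 2) - 1) / (∑ c, β c ^ 2)) • dotL β).smulRight β)) z + θ • β := by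
  simp [shear, dotL_apply]

/-- the law of `G - ζ β` -/
theorem law_iii {d : ℕ} (β : Fin d → ℝ) :
    (gv (Fin d)).map (ContinuousLinearMap.id ℝ (Fin d → ℝ) +
      ((((Real.sqrt (1 + ∑ c, β c ^ 2) - 1) / (∑ c, β c ^ 2)) • dotL β).smulRight β)) =
      ((gv (Fin d)).prod G1).map (fun p => p.1 - p.2 • β) := by
  obtain ⟨k, hk⟩ : ∃ k, k = (Real.sqrt (1 + ∑ c, β c ^ 2) - 1) / (∑ c, β c ^ 2) := ⟨_, rfl⟩
  rw [← hk]
  have e2 : (fun p : (Fin d → ℝ) × ℝ => p.1 - p.2 • β) =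
      ⇑(ContinuousLinearMap.fst ℝ (Fin d → ℝ) ℝ -
        (ContinuousLinearMap.snd ℝ (Fin d → ℝ) ℝ).smulRight β :
        ((Fin d → ℝ) × ℝ) →L[ℝ] (Fin d → ℝ)) := rfl
  rw [e2]
  have i1 : IsProbabilityMeasure ((gv (Fin d)).map (ContinuousLinearMap.id ℝ (Fin d → ℝ) +
      ((k • dotL β).smulRight β))) :=
    Measure.isProbabilityMeasure_map (by fun_prop)
  have i2 : IsProbabilityMeasure (((gv (Fin d)).prod G1).map
    (ContinuousLinearMap.fst ℝ (Fin d → ℝ) ℝ -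
        (ContinuousLinearMap.snd ℝ (Fin d → ℝ) ℝ).smulRight β)) :=
    Measure.isProbabilityMeasure_map (by fun_prop)
  refine Measure.ext_of_charFunDual ?_
  funext L
  rw [charFunDual_map, charFunDual_map, charFunDual_prod, cf_gv, cf_gv, cf_G1, ← Complex.exp_add]
  congr 1
  obtain ⟨B, hB⟩ : ∃ B, B = ∑ c, β c ^ 2 := ⟨_, rfl⟩
  have hLβ : L β = ∑ i, β i * L (Pi.single i 1) := by
    conv_lhs => rw [← Finset.univ_sum_single β, map_sum]
    refine Finset.sum_congr rfl fun i _ => ?_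
    rw [show (Pi.single i (β i) : Fin d → ℝ) = β i • Pi.single i 1 by
      rw [← Pi.single_smul, smul_eq_mul, mul_one], map_smul, smul_eq_mul]
  have h1 : ∑ i : Fin d, ((L.comp (ContinuousLinearMap.id ℝ (Fin d → ℝ) +
      ((k • dotL β).smulRight β))) (Pi.single i 1)) ^ 2 =
      ∑ i : Fin d, (L (Pi.single i 1)) ^ 2 + (2 * k + k ^ 2 * B) * (L β) ^ 2 := by
    have : ∀ i : Fin d, ((L.comp (ContinuousLinearMap.id ℝ (Fin d → ℝ) +
      ((k • dotL β).smulRight β))) (Pi.single i 1)) ^ 2 = (L (Pi.single i 1)) ^ 2 +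
        2 * k * L β * (β i * L (Pi.single i 1)) + k ^ 2 * (L β) ^ 2 * β i ^ 2 := by
      intro i
      simp only [ContinuousLinearMap.comp_apply, ContinuousLinearMap.add_apply,
        ContinuousLinearMap.id_apply, ContinuousLinearMap.smulRight_apply,
        ContinuousLinearMap.smul_apply, dotL_apply, map_add, map_smul, smul_eq_mul,
        dotProduct_single, mul_one]
      ring
    simp_rw [this]
    rw [Finset.sum_add_distrib, Finset.sum_add_distrib, ← Finset.mul_sum, ← Finset.mul_sum,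
      ← hLβ, ← hB]
    ring
  have h2 : ∑ i : Fin d, (((L.comp (ContinuousLinearMap.fst ℝ (Fin d → ℝ) ℝ -
        (ContinuousLinearMap.snd ℝ (Fin d → ℝ) ℝ).smulRight β)).comp
          (ContinuousLinearMap.inl ℝ (Fin d → ℝ) ℝ)) (Pi.single i 1)) ^ 2 =
      ∑ i : Fin d, (L (Pi.single i 1)) ^ 2 := by
    refine Finset.sum_congr rfl fun i _ => ?_
    simp
  have h3 : (((L.comp (ContinuousLinearMap.fst ℝ (Fin d → ℝ) ℝ -
        (ContinuousLinearMap.snd ℝ (Fin d → ℝ) ℝ).smulRight β)).comp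
          (ContinuousLinearMap.inr ℝ (Fin d → ℝ) ℝ)) 1) = -(L β) := by
    simp
  have h4 : (2 * k + k ^ 2 * B) * (L β) ^ 2 = (L β) ^ 2 := by
    by_cases h0 : B = 0
    · have hβ : β = 0 := by
        rw [hB, Finset.sum_eq_zero_iff_of_nonneg (fun i _ => sq_nonneg _)] at h0
        funext i
        simpa using h0 i (Finset.mem_univ i)
      rw [hβ, map_zero]
      ring
    · have hBn : 0 ≤ B := by rw [hB]; positivity
      have hs : Real.sqrt (1 + B) ^ 2 = 1 + B := Real.sq_sqrt (by positivity)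
      have : 2 * k + k ^ 2 * B = 1 := by
        rw [hk, ← hB]
        field_simp
        nlinarith [hs]
      rw [this, one_mul]
  rw [h1, h2, h3, h4]
  push_cast
  ring

end Pool.Agent.K1H37.RP
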