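import Pool.Agent.K1H37.RP.Law

/-! # The law of `V / η` (piece RP-TF4) -/

set_option autoImplicit false

open MeasureTheory ProbabilityTheory Matrix
open scoped BigOperators ENNReal

namespace Pool.Agent.K1H37.RP

open Pool.Agent.K1H9.RP

theorem lintegral_smul_vol {d : ℕ} (f : (Fin d → ℝ) → ℝ≥0∞) (hf : Measurable f) {η : ℝ}
    (hη : η ≠ 0) : ∫⁻ V : Fin d → ℝ, f V = ENNReal.ofReal (|η| ^ d) * ∫⁻ β, f (η • β) := by
  have h1 := Measure.map_addHaar_smul (volume : Measure (Fin d → ℝ)) hη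
  have h2 : ∫⁻ β, f (η • β) = ∫⁻ V, f V ∂(Measure.map (η • ·) (volume : Measure (Fin d → ℝ))) := by
    rw [lintegral_map hf (measurable_const_smul η)]
  rw [h2, h1, lintegral_smul_measure, smul_eq_mul, ← mul_assoc, ← ENNReal.ofReal_mul (by positivity),
    Module.finrank_fin_fun, abs_inv, abs_pow, mul_inv_cancel₀ (by positivity), ENNReal.ofReal_one,
    one_mul]

theorem lintegral_mul_vol (f : ℝ → ℝ≥0∞) (hf : Measurable f) {s : ℝ} (hs : 0 < s) :
    ∫⁻ η : ℝ, f (s * η) = ENNReal.ofReal s⁻¹ * ∫⁻ u, f u := by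
  have h1 := Measure.map_addHaar_smul (volume : Measure ℝ) hs.ne'
  have h2 : ∫⁻ η, f (s * η) = ∫⁻ V, f V ∂(Measure.map (s • ·) (volume : Measure ℝ)) := by
    rw [lintegral_map hf (measurable_const_smul s)]
    rfl
  rw [h2, h1, lintegral_smul_measure, smul_eq_mul, Module.finrank_self, pow_one, abs_inv,
    abs_of_pos hs]

/-- the weight -/
noncomputable def wt {d : ℕ} (β : Fin d → ℝ) : ℝ := (Real.sqrt (1 + ∑ c, β c ^ 2))⁻¹ ^ (d + 1)

theorem wt_nonneg {d : ℕ} (β : Fin d → ℝ) : 0 ≤ wt β := by unfold wt; positivity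

theorem wt_measurable {d : ℕ} : Measurable (wt (d := d)) := by unfold wt; fun_prop

/-- the constant -/
noncomputable def cc (d : ℕ) : ℝ≥0∞ :=
  ∫⁻ u : ℝ, ENNReal.ofReal (|u| ^ d * ((Real.sqrt (2 * Real.pi))⁻¹ ^ (d + 1) *
    Real.exp (-(u ^ 2) / 2)))

theorem law_ii_aux (d : ℕ) (f : (Fin d → ℝ) → ℝ≥0∞) (hf : Measurable f) :
    ∫⁻ η, ∫⁻ V, f (η⁻¹ • V) ∂(gv (Fin d)) ∂G1 =
      cc d * ∫⁻ β, f β * ENNReal.ofReal (wt β) := by
  have hm1 : Measurable (fun y : ℝ => ENNReal.ofReal ((Real.sqrt (2 * Real.pi))⁻¹ *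
      Real.exp (-(y ^ 2) / 2))) := by fun_prop
  have hJ : Measurable (fun q : ℝ × (Fin d → ℝ) => f (q.1⁻¹ • q.2)) :=
    hf.comp ((measurable_fst.inv).smul measurable_snd)
  have hG : Measurable (fun η : ℝ => ∫⁻ V, f (η⁻¹ • V) ∂(gv (Fin d))) :=
    hJ.lintegral_prod_right'
  rw [G1_eq, lintegral_withDensity_eq_lintegral_mul _ hm1 hG]
  simp only [Pi.mul_apply]
  -- the inner integral
  have hin : ∀ η : ℝ, η ≠ 0 → ∫⁻ V, f (η⁻¹ • V) ∂(gv (Fin d)) =
      ∫⁻ β, ENNReal.ofReal (|η| ^ d * gden (Fin d) (η • β)) * f β := by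
    intro η hη
    have hfη : Measurable (fun V : Fin d → ℝ => f (η⁻¹ • V)) :=
      hf.comp (measurable_const_smul _)
    have hg : Measurable (fun x : Fin d → ℝ => ENNReal.ofReal (gden (Fin d) x)) :=
      (gden_measurable _).ennreal_ofReal
    rw [lintegral_gv _ hfη, lintegral_smul_vol (fun x => ENNReal.ofReal (gden (Fin d) x) *
      f (η⁻¹ • x)) (hg.mul hfη) hη, ← lintegral_const_mul]
    · refine lintegral_congr fun β => ?_
      rw [smul_smul, inv_mul_cancel₀ hη, one_smul, ← mul_assoc,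
        ← ENNReal.ofReal_mul (by positivity)]
    · exact (hg.comp (measurable_const_smul η)).mul (hfη.comp (measurable_const_smul η))
  have hae : ∀ᵐ η : ℝ, η ≠ 0 := by
    have : ({0} : Set ℝ)ᶜ ∈ ae (volume : Measure ℝ) := by
      rw [mem_ae_iff, compl_compl]; simp
    exact this
  have e1 : ∫⁻ η : ℝ, ENNReal.ofReal ((Real.sqrt (2 * Real.pi))⁻¹ *
      Real.exp (-(η ^ 2) / 2)) * ∫⁻ V, f (η⁻¹ • V) ∂(gv (Fin d)) =
      ∫⁻ η : ℝ, ∫⁻ β, ENNReal.ofReal ((Real.sqrt (2 * Real.pi))⁻¹ *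
      Real.exp (-(η ^ 2) / 2)) * (ENNReal.ofReal (|η| ^ d * gden (Fin d) (η • β)) * f β) := by
    refine lintegral_congr_ae ?_
    filter_upwards [hae] with η hη
    rw [hin η hη, ← lintegral_const_mul]
    refine Measurable.mul (Measurable.ennreal_ofReal ?_) hf
    exact ((gden_measurable _).comp (measurable_const_smul η)).const_mul _
  rw [e1, lintegral_lintegral_swap]
  · rw [← lintegral_const_mul]
    · refine lintegral_congr fun β => ?_
      obtain ⟨s, hs⟩ : ∃ s, s = Real.sqrt (1 + ∑ c, β c ^ 2) := ⟨_, rfl⟩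
      have hs0 : 0 < s := by rw [hs]; positivity
      have hs2 : s ^ 2 = 1 + ∑ c, β c ^ 2 := by rw [hs]; exact Real.sq_sqrt (by positivity)
      have e2 : ∀ η : ℝ, ENNReal.ofReal ((Real.sqrt (2 * Real.pi))⁻¹ *
          Real.exp (-(η ^ 2) / 2)) * (ENNReal.ofReal (|η| ^ d * gden (Fin d) (η • β)) * f β) =
          f β * ENNReal.ofReal (s⁻¹ ^ d) * (ENNReal.ofReal (|s * η| ^ d *
            ((Real.sqrt (2 * Real.pi))⁻¹ ^ (d + 1) * Real.exp (-((s * η) ^ 2) / 2)))) := by
        intro η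
        have hg0 := (gden_pos (Fin d) (η • β)).le
        rw [← mul_assoc, ← ENNReal.ofReal_mul (by positivity), mul_comm _ (f β), mul_assoc (f β),
          ← ENNReal.ofReal_mul (by positivity)]
        congr 2
        have h1 : Real.exp (-((s * η) ^ 2) / 2) = Real.exp (-(η ^ 2) / 2) *
            Real.exp (-(∑ i, (η • β) i ^ 2) / 2) := by
          rw [← Real.exp_add]
          congr 1
          rw [mul_pow, hs2]
          simp only [Pi.smul_apply, smul_eq_mul, mul_pow]
          rw [← Finset.mul_sum]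
          ring
        unfold gden
        rw [h1, Fintype.card_fin, abs_mul, abs_of_pos hs0, mul_pow]
        have hss : s⁻¹ ^ d * s ^ d = 1 := by
          rw [← mul_pow, inv_mul_cancel₀ hs0.ne', one_pow]
        generalize (Real.sqrt (2 * Real.pi))⁻¹ = r
        generalize Real.exp (-(η ^ 2) / 2) = E1
        generalize Real.exp (-(∑ i, (η • β) i ^ 2) / 2) = E2
        linear_combination (-(|η| ^ d * r ^ (d + 1) * E1 * E2)) * hss
      simp_rw [e2]
      rw [lintegral_const_mul]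
      · rw [lintegral_mul_vol (fun u => ENNReal.ofReal (|u| ^ d *
            ((Real.sqrt (2 * Real.pi))⁻¹ ^ (d + 1) * Real.exp (-(u ^ 2) / 2)))) (by fun_prop) hs0]
        change _ * (_ * cc d) = _
        have : ENNReal.ofReal (wt β) = ENNReal.ofReal (s⁻¹ ^ d) * ENNReal.ofReal s⁻¹ := by
          rw [← ENNReal.ofReal_mul (by positivity), wt, ← hs, pow_succ]
        rw [this]
        ring
      · fun_prop
    · exact hf.mul wt_measurable.ennreal_ofReal
  · refine Measurable.aemeasurable ?_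
    refine Measurable.mul ?_ (Measurable.mul ?_ ?_)
    · exact (by fun_prop : Measurable (fun q : ℝ × (Fin d → ℝ) =>
        ENNReal.ofReal ((Real.sqrt (2 * Real.pi))⁻¹ * Real.exp (-(q.1 ^ 2) / 2))))
    · refine Measurable.ennreal_ofReal ?_
      refine Measurable.mul ?_ ?_
      · exact (by fun_prop : Measurable (fun q : ℝ × (Fin d → ℝ) => |q.1| ^ d))
      · exact (gden_measurable (Fin d)).comp (measurable_fst.smul measurable_snd)
    · exact hf.comp measurable_snd

theorem cc_ne (d : ℕ) : cc d ≠ 0 ∧ cc d ≠ ∞ := by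
  have h := law_ii_aux d (fun _ => 1) measurable_const
  simp only [lintegral_const, measure_univ, mul_one, one_mul] at h
  constructor
  · intro h0
    rw [h0, zero_mul] at h
    exact one_ne_zero h
  · intro h0
    rw [h0] at h
    by_cases hK : ∫⁻ β : Fin d → ℝ, ENNReal.ofReal (wt β) = 0
    · rw [hK, mul_zero] at h
      exact one_ne_zero h
    · rw [ENNReal.top_mul hK] at h
      exact ENNReal.one_ne_top h

/-- the law of `V / η` -/
theorem law_ii (d : ℕ) (F : (Fin d → ℝ) → ℝ) (hF : Measurable F) :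
    ∫ p : ℝ × (Fin d → ℝ), F (p.1⁻¹ • p.2) ∂(G1.prod (gv (Fin d))) =
      (cc d).toReal * ∫ β, wt β * F β := by
  have hmeas : Measurable (fun p : ℝ × (Fin d → ℝ) => p.1⁻¹ • p.2) :=
    (measurable_fst.inv).smul measurable_snd
  have hlaw : (G1.prod (gv (Fin d))).map (fun p : ℝ × (Fin d → ℝ) => p.1⁻¹ • p.2) =
      cc d • (volume : Measure (Fin d → ℝ)).withDensity (fun β => ENNReal.ofReal (wt β)) := by
    refine Measure.ext_of_lintegral _ fun f hf => ?_
    rw [lintegral_map hf hmeas, lintegral_prod (fun a : ℝ × (Fin d → ℝ) => f (a.1⁻¹ • a.2))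
      (hf.comp hmeas).aemeasurable, law_ii_aux d f hf,
      lintegral_smul_measure, smul_eq_mul,
      lintegral_withDensity_eq_lintegral_mul _ wt_measurable.ennreal_ofReal hf]
    congr 1
    refine lintegral_congr fun β => ?_
    rw [Pi.mul_apply, mul_comm]
  have h1 : ∫ p : ℝ × (Fin d → ℝ), F (p.1⁻¹ • p.2) ∂(G1.prod (gv (Fin d))) =
      ∫ β, F β ∂((G1.prod (gv (Fin d))).map (fun p : ℝ × (Fin d → ℝ) => p.1⁻¹ • p.2)) :=
    (integral_map hmeas.aemeasurable hF.aestronglyMeasurable).symm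
  rw [h1, hlaw, integral_smul_measure, smul_eq_mul]
  congr 1
  rw [integral_withDensity_eq_integral_toReal_smul wt_measurable.ennreal_ofReal
    (Filter.Eventually.of_forall fun _ => ENNReal.ofReal_lt_top)]
  refine integral_congr_ae (Filter.Eventually.of_forall fun β => ?_)
  simp only [smul_eq_mul]
  rw [ENNReal.toReal_ofReal (wt_nonneg β)]

end Pool.Agent.K1H37.RP
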