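import Pool.Agent.K1H37.RP.Rat

/-! # Averaging over the slope (piece RP-TF4) -/

set_option autoImplicit false

open MeasureTheory ProbabilityTheory Matrix
open scoped BigOperators ENNReal

namespace Pool.Agent.K1H37.RP

open Pool.Agent.K1H9.RP

theorem int_bdd {α : Type*} [MeasurableSpace α] (μ : Measure α) [IsProbabilityMeasure μ]
    {f : α → ℝ} (hf : StronglyMeasurable f) {M : ℝ} (hb : ∀ x, |f x| ≤ M) : Integrable f μ :=
  Integrable.of_bound hf.aestronglyMeasurable M (Filter.Eventually.of_forall hb)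

theorem abs_int_le {α : Type*} [MeasurableSpace α] (μ : Measure α) [IsProbabilityMeasure μ]
    {f : α → ℝ} {M : ℝ} (hb : ∀ x, |f x| ≤ M) : |∫ x, f x ∂μ| ≤ M := by
  have := norm_integral_le_of_norm_le_const (μ := μ) (f := f) (C := M)
    (Filter.Eventually.of_forall hb)
  simpa using this

theorem t_TF4 : S_TF4 := by
  intro d
  obtain ⟨hc0, hct⟩ := cc_ne d
  have hcpos : 0 < (cc d).toReal := ENNReal.toReal_pos hc0 hct
  refine ⟨(cc d).toReal⁻¹, inv_pos.2 hcpos, ?_⟩
  rintro θ W hW ⟨M, hM⟩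
  have hWs : StronglyMeasurable W := hW.stronglyMeasurable
  -- the average for a fixed slope
  let H : (Fin d → ℝ) → ℝ := fun β =>
    ∫ p : (Fin d → ℝ) × ℝ, W (p.1 + (θ - p.2) • β) ∂((gv (Fin d)).prod G1)
  have hKm : Measurable (fun q : (Fin d → ℝ) × ((Fin d → ℝ) × ℝ) =>
      q.2.1 + (θ - q.2.2) • q.1) :=
    (measurable_snd.fst).add ((measurable_const.sub measurable_snd.snd).smul measurable_fst)
  have hKs : StronglyMeasurable (fun q : (Fin d → ℝ) × ((Fin d → ℝ) × ℝ) =>
      W (q.2.1 + (θ - q.2.2) • q.1)) := (hW.comp hKm).stronglyMeasurable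
  have hH : StronglyMeasurable H := hKs.integral_prod_right'
  have h1 : ∀ β : Fin d → ℝ, ∫ z, W (shear β θ z) ∂(gv (Fin d)) = H β := by
    intro β
    have hWβ : StronglyMeasurable (fun y : Fin d → ℝ => W (y + θ • β)) :=
      (hW.comp (measurable_id.add_const _)).stronglyMeasurable
    simp_rw [shear_eq]
    rw [← integral_map (μ := gv (Fin d)) (φ := ⇑(ContinuousLinearMap.id ℝ (Fin d → ℝ) +
      ((((Real.sqrt (1 + ∑ c, β c ^ 2) - 1) / (∑ c, β c ^ 2)) • dotL β).smulRight β)))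
      (f := fun y : Fin d → ℝ => W (y + θ • β)) (by fun_prop) hWβ.aestronglyMeasurable, law_iii,
      integral_map (by fun_prop) hWβ.aestronglyMeasurable]
    refine integral_congr_ae (Filter.Eventually.of_forall fun p => ?_)
    simp only
    congr 1
    rw [sub_smul]
    abel
  have h2 : ∫ β : Fin d → ℝ, (Real.sqrt (1 + ∑ c, β c ^ 2))⁻¹ ^ (d + 1) *
      ∫ z, W (shear β θ z) ∂(gv (Fin d)) = ∫ β, wt β * H β := by
    simp_rw [h1]
    rfl
  have h3 := law_ii d H hH.measurable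
  have h4 : ∫ β, wt β * H β = (cc d).toReal⁻¹ *
      ∫ p : ℝ × (Fin d → ℝ), H (p.1⁻¹ • p.2) ∂(G1.prod (gv (Fin d))) := by
    rw [h3, ← mul_assoc, inv_mul_cancel₀ hcpos.ne', one_mul]
  rw [h2, h4]
  congr 1
  -- the right hand side
  have h5 : ∀ ζ η : ℝ, ∫ g, W (Real.sqrt (1 + ((θ - ζ) / η) ^ 2) • g) ∂(gv (Fin d)) =
      ∫ V, ∫ G, W (G + (θ - ζ) • (η⁻¹ • V)) ∂(gv (Fin d)) ∂(gv (Fin d)) := by
    intro ζ η
    have e1 : ∫ g, W (Real.sqrt (1 + ((θ - ζ) / η) ^ 2) • g) ∂(gv (Fin d)) =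
        ∫ y, W y ∂((gv (Fin d)).map (fun g => Real.sqrt (1 + ((θ - ζ) / η) ^ 2) • g)) :=
      (integral_map (measurable_const_smul _).aemeasurable hWs.aestronglyMeasurable).symm
    rw [e1, law_i, integral_map (by fun_prop) hWs.aestronglyMeasurable, integral_prod_symm]
    · refine integral_congr_ae (Filter.Eventually.of_forall fun V => ?_)
      refine integral_congr_ae (Filter.Eventually.of_forall fun G => ?_)
      simp only
      rw [smul_smul, div_eq_mul_inv]
    · have hm : Measurable (fun x : (Fin d → ℝ) × (Fin d → ℝ) =>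
          x.1 + ((θ - ζ) / η) • x.2) := by fun_prop
      exact int_bdd _ ((hW.comp hm).stronglyMeasurable) (fun x => hM _)
  simp_rw [h5]
  -- the function of all the variables
  have hΦ : Measurable (fun q : ((ℝ × (Fin d → ℝ)) × ℝ) × (Fin d → ℝ) =>
      W (q.2 + (θ - q.1.2) • (q.1.1.1⁻¹ • q.1.1.2))) := by
    refine hW.comp (measurable_snd.add ((measurable_const.sub measurable_fst.snd).smul ?_))
    exact (measurable_fst.fst.fst.inv).smul measurable_fst.fst.snd
  have hΦi : StronglyMeasurable (fun q : (ℝ × (Fin d → ℝ)) × ℝ =>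
      ∫ G, W (G + (θ - q.2) • (q.1.1⁻¹ • q.1.2)) ∂(gv (Fin d))) :=
    hΦ.stronglyMeasurable.integral_prod_right'
  have h6 : ∀ q : ℝ × (Fin d → ℝ), H (q.1⁻¹ • q.2) =
      ∫ ζ, ∫ G, W (G + (θ - ζ) • (q.1⁻¹ • q.2)) ∂(gv (Fin d)) ∂G1 := by
    intro q
    change ∫ p : (Fin d → ℝ) × ℝ, W (p.1 + (θ - p.2) • (q.1⁻¹ • q.2)) ∂((gv (Fin d)).prod G1) = _
    rw [integral_prod_symm]
    refine int_bdd _ (Measurable.stronglyMeasurable ?_) (fun x => hM _)
    exact hW.comp (measurable_fst.add ((measurable_const.sub measurable_snd).smul_const _))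
  simp_rw [h6]
  rw [integral_integral_swap]
  · refine integral_congr_ae (Filter.Eventually.of_forall fun ζ => ?_)
    simp only
    rw [integral_prod]
    refine int_bdd _ ?_ (M := M) (fun q => abs_int_le _ (fun x => hM _))
    exact hΦi.comp_measurable (measurable_id.prodMk measurable_const)
  · exact int_bdd _ hΦi (M := M) (fun q => abs_int_le _ (fun x => hM _))

end Pool.Agent.K1H37.RP
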